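import Pool.Agent.N20.EN.Fin
import Pool.Agent.N441.ENBRQ
import Pool.Agent.N657.ENFILTAO
import Pool.Agent.N454.ENFILT
import Pool.Agent.N663.ENTOG
import Pool.Agent.N476.ENLQO
import Pool.Agent.N717.ENNQ
import Pool.Agent.N973.ENTR
import Pool.Agent.N395.ENBASA
import Pool.Agent.N301.ENBASB
import Pool.Agent.N706.ENCNTO
import Pool.Agent.N527.ENSEPW
import Pool.Agent.N286.ENFINO
import Pool.Agent.N285.ENCONV

/-!
# Navarro's conjecture and overgroups: the theorem
-/

set_option autoImplicit false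

open scoped Classical BigOperators

noncomputable section

namespace Pool.Agent.N20.EN

open Pool.Agent.Y63.NV

/-- **the theorem** -/
theorem all_en (p : ℕ) [Fact p.Prime] (F : Type) [Field F] [IsAlgClosed F] [CharP F p]
    (red : integralClosure ℤ ℂ →+* F) :
    (∀ (Γ : Type) [Group Γ] [Finite Γ] (G : Subgroup Γ) [G.Normal], IsPGroup p (Γ ⧸ G) →
      NavarroTheta p red G) ↔
    ∀ (K : Type) [Group K] [Finite K] (G M : Subgroup K) [G.Normal] [M.Normal], G ≤ M →
      PQ p G M → ∀ B : (G → F) → F, IsBlock B → IsInvBlock G B →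
        orbI M G B = orbN p red M G B :=
  main_en N441.ENBRQ.BRQO (N454.ENFILT.FILTO N657.EN.FILTAO) N663.ENTOG.TOGO N476.EN.LQO
    N717.EN.NQO N973.ENTR.TRLO N973.ENTR.TRNO N395.ENBASA.BASA N301.ENBASB.BASB
    (N286.ENFINO.FINO N706.ENCNTO.CNTO N527.EN.SEPW) N285.ENCONV.CONV red

end Pool.Agent.N20.EN
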