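import Pool.Agent.N20.EN.Stm
import Pool.Agent.Y63.NV.Kalt

/-!
# Navarro's conjecture and overgroups: the induction
-/

set_option autoImplicit false
set_option linter.unusedSectionVars false

open scoped Classical BigOperators

noncomputable section

namespace Pool.Agent.N20.EN

open Pool.Agent.Y63.NV
open Pool.Agent.Y63.KR

section

variable {p : ℕ} [Fact p.Prime] {F : Type} [Field F] [IsAlgClosed F] [CharP F p]
  {Γ : Type} [Group Γ] [Finite Γ] {G M : Subgroup Γ}

/-- `M/G` is a `p`-group -/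
def PQ (p : ℕ) {Γ : Type} [Group Γ] (G M : Subgroup Γ) : Prop := ∀ m ∈ M, ∃ k : ℕ, m ^ p ^ k ∈ G

/-- the weight function -/
def wO (p : ℕ) (G M : Subgroup Γ) (z : Γ → F) (c : F) (R J : Subgroup Γ) : ℤ :=
  (Nat.card J : ℤ) * gm p (cut (cut z J) (Subgroup.centralizer (R : Set Γ)))
    (SR p (G ⊓ J) (M ⊓ J) R) J c

theorem orbL_cut (H : Subgroup Γ) (z : Γ → F) (c : F) :
    OrbL (G ⊓ H) (M ⊓ H) H (cut z H) c = OrbL (G ⊓ H) (M ⊓ H) H z c := by
  have e : ∀ g : ↥(G ⊓ H), cut z H g = z g := fun g => if_pos g.2.2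
  have e2 : ∀ φ : ↥(G ⊓ H) → F, (IsIrrTrace φ ∧ IsInvUnder (M ⊓ H) φ ∧
      ∀ x : ↥(G ⊓ H), ∑ᶠ g : ↥(G ⊓ H), cut z H g * φ (g * x) = c * φ x) ↔
      (IsIrrTrace φ ∧ IsInvUnder (M ⊓ H) φ ∧
      ∀ x : ↥(G ⊓ H), ∑ᶠ g : ↥(G ⊓ H), z g * φ (g * x) = c * φ x) := by
    intro φ
    refine and_congr Iff.rfl (and_congr Iff.rfl (forall_congr' fun x => ?_))
    rw [finsum_congr fun g => by rw [e g]]
  exact Nat.card_congr (Quot.congr (Equiv.subtypeEquivRight e2) fun _ _ => Iff.rfl)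

theorem sr_eqO {H R : Subgroup Γ} :
    SR p (G ⊓ H) (M ⊓ H ⊓ Subgroup.normalizer (R : Set Γ)) R =
      SR p (G ⊓ (H ⊓ Subgroup.normalizer (R : Set Γ)))
        (M ⊓ (H ⊓ Subgroup.normalizer (R : Set Γ))) R := by
  have key : ∀ x : Γ, (∀ r ∈ R, r * x = x * r) → x ∈ Subgroup.normalizer (R : Set Γ) := by
    intro x hx
    refine Subgroup.centralizer_le_normalizer _ ?_
    rw [Subgroup.mem_centralizer_iff]
    intro r hr
    exact hx r hr
  rw [inf_assoc]
  ext x
  constructor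
  · rintro ⟨⟨h1, h2⟩, h3, h4, h5⟩
    exact ⟨⟨h1, h2, key x h4⟩, h3, h4, h5⟩
  · rintro ⟨⟨h1, h2, _⟩, h3, h4, h5⟩
    exact ⟨⟨h1, h2⟩, h3, h4, h5⟩

theorem ded [hG : G.Normal] {H R : Subgroup Γ} (hGH : G ⊔ (M ⊓ H) = M) (hRH : R ≤ H) :
    (R ≤ M ⊓ H ∧ M ⊓ H ≤ (G ⊓ H) ⊔ R) ↔ G ⊔ R = M := by
  have hGM : G ≤ M := by
    rw [← hGH]
    exact le_sup_left
  constructor
  · rintro ⟨h1, h2⟩
    refine le_antisymm (sup_le hGM (h1.trans inf_le_left)) ?_
    conv_lhs => rw [← hGH]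
    refine sup_le le_sup_left (h2.trans (sup_le ?_ le_sup_right))
    exact inf_le_left.trans le_sup_left
  · intro h
    have hRM : R ≤ M := by
      rw [← h]
      exact le_sup_right
    refine ⟨le_inf hRM hRH, ?_⟩
    intro x hx
    have hx' : x ∈ (G ⊔ R : Subgroup Γ) := by
      rw [h]
      exact hx.1
    rw [Subgroup.mem_sup_of_normal_left] at hx'
    obtain ⟨g, hg, r, hr, rfl⟩ := hx'
    have hgH : g ∈ H := by
      have := H.mul_mem hx.2 (H.inv_mem (hRH hr))
      rwa [mul_inv_cancel_right] at this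
    exact Subgroup.mul_mem_sup ⟨hg, hgH⟩ hr

theorem lsum_eqO (h1 : S_BRQO) (h2 : S_FILTO) [hG : G.Normal] [hM : M.Normal] (hGM : G ≤ M)
    (hp : PQ p G M) {z : Γ → F} (hz : InZ G z) (c : F) (H : Subgroup Γ) :
    LsK G M H z c =
      ∑ᶠ R : Subgroup Γ, (if IsPGroup p R ∧ R ≤ H ∧ G ⊔ R = M then
        wO p G M z c R (H ⊓ Subgroup.normalizer (R : Set Γ)) else 0) := by
  have : Fintype (Subgroup Γ) := Fintype.ofFinite _
  have hext : ExtO p (G ⊓ H) (M ⊓ H) H (cut z H) :=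
    { ext :=
      { le := inf_le_inf_right H hGM
        norm := fun h hh n hn => ⟨hG.conj_mem n hn.1 h,
          Subgroup.mul_mem _ (Subgroup.mul_mem _ hh.2 hn.2) (Subgroup.inv_mem _ hh.2)⟩
        pq := fun h hh => by
          obtain ⟨k, hk⟩ := hp h hh.1
          exact ⟨k, hk, Subgroup.pow_mem _ hh.2 _⟩
        inv := fun h hh x => cut_conj hz.conj hh.2 x
        supp := fun x hx => by
          unfold cut
          split_ifs with h
          · exact hz.supp x fun hxG => hx ⟨hxG, h⟩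
          · rfl }
      le := inf_le_right
      normN := fun h hh n hn => ⟨hG.conj_mem n hn.1 h,
        Subgroup.mul_mem _ (Subgroup.mul_mem _ hh hn.2) (Subgroup.inv_mem _ hh)⟩
      normM := fun h hh n hn => ⟨hM.conj_mem n hn.1 h,
        Subgroup.mul_mem _ (Subgroup.mul_mem _ hh hn.2) (Subgroup.inv_mem _ hh)⟩
      inv := fun h hh x => cut_conj hz.conj hh x }
  unfold LsK
  by_cases hGH : G ⊔ (M ⊓ H) = M
  · rw [if_pos hGH, ← orbL_cut]
    have h3 := h1 p F Γ _ _ _ _ hext c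
    have h4 := h2 p F Γ _ _ _ _ hext c
    rw [h3, ← Nat.cast_mul, h4, finsum_eq_sum_of_fintype, finsum_eq_sum_of_fintype, Nat.cast_sum]
    refine Finset.sum_congr rfl fun R _ => ?_
    by_cases hR : IsPGroup p R ∧ R ≤ H
    · have h5 := ded hGH hR.2
      by_cases h6 : G ⊔ R = M
      · rw [if_pos ⟨hR.1, h5.2 h6⟩, if_pos ⟨hR.1, hR.2, h6⟩, Nat.cast_mul, cut_cut]
        unfold wO
        rw [sr_eqO]
      · rw [if_neg (fun h => h6 (h5.1 h.2)), if_neg (fun h => h6 h.2.2), Nat.cast_zero]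
    · rw [if_neg (fun h => hR ⟨h.1, h.2.1.trans inf_le_right⟩),
        if_neg (fun h => hR ⟨h.1, h.2.1⟩), Nat.cast_zero]
  · rw [if_neg hGH, finsum_eq_sum_of_fintype]
    symm
    refine Finset.sum_eq_zero fun R _ => ?_
    rw [if_neg]
    rintro ⟨_, h5, h6⟩
    apply hGH
    refine le_antisymm (sup_le hGM inf_le_left) ?_
    conv_lhs => rw [← h6]
    refine sup_le le_sup_left (le_sup_of_le_right (le_inf ?_ h5))
    rw [← h6]
    exact le_sup_right

/-- cancellation -/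
theorem alt_zeroO (hT : S_TOGO) (hGM : G ≠ M) (w : Subgroup Γ → Subgroup Γ → ℤ)
    (f : Subgroup Γ → ℤ) (hf : ∀ H : Subgroup Γ, f H = ∑ᶠ R : Subgroup Γ,
      (if IsPGroup p R ∧ R ≤ H ∧ G ⊔ R = M then
        w R (H ⊓ Subgroup.normalizer (R : Set Γ)) else 0)) :
    ∑ᶠ σ : {σ : Set (Subgroup Γ) // IsPChain p σ ∧ ∀ P ∈ σ, P ≤ M},
      (-1) ^ σ.1.ncard * f (chainStabilizer σ.1) = 0 := by
  have : Fintype (Subgroup Γ) := Fintype.ofFinite _
  have : Fintype {σ : Set (Subgroup Γ) // IsPChain p σ ∧ ∀ P ∈ σ, P ≤ M} := Fintype.ofFinite _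
  rw [finsum_eq_sum_of_fintype]
  simp only [hf, finsum_eq_sum_of_fintype, Finset.mul_sum]
  rw [Finset.sum_comm]
  refine Finset.sum_eq_zero fun R _ => ?_
  by_cases hR : IsPGroup p R ∧ G ⊔ R = M
  · have hR1 : R ≠ ⊥ := by
      rintro rfl
      exact hGM (by simpa using hR.2)
    have hRM : R ≤ M := by
      rw [← hR.2]
      exact le_sup_right
    have h := hT p Γ M R (fun J => w R J) hR.1 hR1 hRM
    rw [finsum_eq_sum_of_fintype] at h
    refine Eq.trans ?_ h
    refine Finset.sum_congr rfl fun σ _ => ?_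
    by_cases h1 : R ≤ chainStabilizer σ.1
    · rw [if_pos ⟨hR.1, h1, hR.2⟩, if_pos h1]
    · rw [if_neg (fun h => h1 h.2.1), if_neg h1]
  · refine Finset.sum_eq_zero fun σ _ => ?_
    rw [if_neg (fun h => hR ⟨h.1, h.2.2⟩), mul_zero]

theorem lsK_zero {H : Subgroup Γ} (h : G ⊔ (M ⊓ H) ≠ M) (z : Γ → F) (c : F) :
    LsK G M H z c = 0 := if_neg h

theorem wsK_zero (red : integralClosure ℤ ℂ →+* F) (hGM : G ≤ M) {H : Subgroup Γ}
    (h : G ⊔ (M ⊓ H) ≠ M) (z : Γ → F) (c : F) : WsK p red G M H z c = 0 := by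
  unfold WsK
  refine finsum_eq_zero_of_forall_eq_zero fun Q => ?_
  rw [if_neg]
  rintro ⟨_, h2, h3⟩
  apply h
  refine le_antisymm (sup_le hGM inf_le_left) ?_
  conv_lhs => rw [← h3]
  refine sup_le le_sup_left (le_sup_of_le_right (le_inf ?_ h2))
  rw [← h3]
  exact le_sup_right

theorem stab_empty : chainStabilizer (∅ : Set (Subgroup Γ)) = ⊤ := by
  rw [eq_top_iff]
  intro x _
  rw [mem_chainStabilizer]
  intro P hP
  exact absurd hP (Set.notMem_empty P)

theorem empty_pchain : IsPChain p (∅ : Set (Subgroup Γ)) := empty_chain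

theorem lw_local (h1 : S_BRQO) (h2 : S_FILTO) (hT : S_TOGO) (red : integralClosure ℤ ℂ →+* F)
    [hG : G.Normal] [hM : M.Normal] (hGM : G ≤ M) (hne : G ≠ M) (hp : PQ p G M) {z : Γ → F}
    (hz : InZ G z) (c : F)
    (h : ∀ σ : Set (Subgroup Γ), IsPChain p σ → (∀ P ∈ σ, P ≤ M) → σ.Nonempty →
      G ⊔ (M ⊓ chainStabilizer σ) = M →
      LsK G M (chainStabilizer σ) z c = WsK p red G M (chainStabilizer σ) z c) :
    LsK G M ⊤ z c = WsK p red G M ⊤ z c := by
  have h3 := alt_zeroO hT hne (wO p G M z c) (fun H => LsK G M H z c)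
    (fun H => lsum_eqO h1 h2 hGM hp hz c H)
  have h4 := alt_zeroO hT hne (fun Q J => (Nat.card J : ℤ) * OrbW p red M J Q z c)
    (fun H => WsK p red G M H z c) (fun H => rfl)
  have : Fintype {σ : Set (Subgroup Γ) // IsPChain p σ ∧ ∀ P ∈ σ, P ≤ M} := Fintype.ofFinite _
  rw [finsum_eq_sum_of_fintype] at h3 h4
  have h5 : ∑ σ : {σ : Set (Subgroup Γ) // IsPChain p σ ∧ ∀ P ∈ σ, P ≤ M}, (-1) ^ σ.1.ncard *
      (LsK G M (chainStabilizer σ.1) z c - WsK p red G M (chainStabilizer σ.1) z c) = 0 := by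
    simp only [mul_sub]
    rw [Finset.sum_sub_distrib, h3, h4, sub_zero]
  rw [Finset.sum_eq_single (⟨∅, empty_pchain, fun P hP => absurd hP (Set.notMem_empty P)⟩ :
    {σ : Set (Subgroup Γ) // IsPChain p σ ∧ ∀ P ∈ σ, P ≤ M})] at h5
  · simp only [Set.ncard_empty, pow_zero, one_mul] at h5
    rw [stab_empty] at h5
    exact sub_eq_zero.mp h5
  · intro σ _ hσ
    have hne : σ.1.Nonempty := by
      rw [Set.nonempty_iff_ne_empty]
      intro h
      exact hσ (Subtype.ext h)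
    by_cases hGH : G ⊔ (M ⊓ chainStabilizer σ.1) = M
    · rw [h σ.1 σ.2.1 σ.2.2 hne hGH, sub_self, mul_zero]
    · rw [lsK_zero hGH, wsK_zero red hGM hGH, sub_self, mul_zero]
  · intro h
    exact absurd (Finset.mem_univ _) h

end

/-- **the induction** -/
theorem inductO (h1 : S_BRQO) (h2 : S_FILTO) (hT : S_TOGO) (hLQ : S_LQO) (hNQ : S_NQO)
    (hTL : S_TRLO) (hTN : S_TRNO) {p : ℕ} [Fact p.Prime] {F : Type} [Field F] [IsAlgClosed F]
    [CharP F p] (red : integralClosure ℤ ℂ →+* F)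
    (base : ∀ (K : Type) [Group K] [Finite K] (M : Subgroup K) [M.Normal] (z : K → F), InZ M z →
      ∀ c : F, LsK M M ⊤ z c = WsK p red M M ⊤ z c) :
    ∀ (n : ℕ) (K : Type) [Group K] [Finite K] (G M : Subgroup K) [G.Normal] [M.Normal],
      Nat.card K ≤ n → G ≤ M → PQ p G M → ∀ z : K → F, InZ G z → ∀ c : F,
      LsK G M ⊤ z c = WsK p red G M ⊤ z c := by
  intro n
  induction n with
  | zero =>
    intro K _ _ G M _ _ hn
    have := Nat.card_pos (α := K)
    omega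
  | succ n ih =>
    intro K _ _ G M hG hM hn hGM hp z hz c
    by_cases hne : G = M
    · subst hne
      exact base K G z hz c
    by_cases hP : ∃ P : Subgroup K, P.Normal ∧ IsPGroup p P ∧ P ≤ M ∧ P ≠ ⊥
    · obtain ⟨P, hPn, hPp, hPM, hP1⟩ := hP
      obtain ⟨h3, h4⟩ := hLQ p F K G M P z hPp hPM hGM hz c
      have h5 := hNQ p F red K G M P z hPp hPM hGM hz c
      rw [h4, h5]
      congr 1
      have hcard : Nat.card (K ⧸ P) ≤ n := by
        have e1 := Subgroup.card_eq_card_quotient_mul_card_subgroup P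
        have e2 : 1 < Nat.card P := (Subgroup.one_lt_card_iff_ne_bot P).mpr hP1
        have e3 : 0 < Nat.card (K ⧸ P) := Nat.card_pos
        by_contra hlt
        push Not at hlt
        have : Nat.card (K ⧸ P) * 2 ≤ Nat.card K := by
          rw [e1]
          exact Nat.mul_le_mul_left _ e2
        omega
      have hG' : (G.map (QuotientGroup.mk' P)).Normal :=
        Subgroup.Normal.map hG _ (QuotientGroup.mk'_surjective P)
      have hM' : (M.map (QuotientGroup.mk' P)).Normal :=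
        Subgroup.Normal.map hM _ (QuotientGroup.mk'_surjective P)
      refine ih (K ⧸ P) (G.map (QuotientGroup.mk' P)) (M.map (QuotientGroup.mk' P)) hcard
        (Subgroup.map_mono hGM) ?_ (push P z) h3 c
      rintro _ ⟨m, hm, rfl⟩
      obtain ⟨k, hk⟩ := hp m hm
      exact ⟨k, m ^ p ^ k, hk, map_pow _ _ _⟩
    · refine lw_local h1 h2 hT red hGM hne hp hz c fun σ hσ hσM hσn hGH => ?_
      have hz1 : ∀ h ∈ chainStabilizer σ, ∀ x : K, z (h * x * h⁻¹) = z x :=
        fun h _ x => hz.conj h x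
      rw [hTL F K G M (chainStabilizer σ) z c hGH,
        hTN p F red K G M (chainStabilizer σ) z c hGH hz1]
      obtain ⟨P, hPσ⟩ := hσn
      have hne' : chainStabilizer σ ≠ ⊤ := by
        intro htop
        refine hP ⟨P, ⟨fun x hx g => ?_⟩, hσ.isPGroup P hPσ, hσM P hPσ, hσ.ne_bot P hPσ⟩
        have h6 : g ∈ chainStabilizer σ := by
          rw [htop]
          exact Subgroup.mem_top g
        have h7 := mem_chainStabilizer.mp h6 P hPσ
        rw [← h7]
        exact ⟨x, hx, rfl⟩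
      have hcard : Nat.card (chainStabilizer σ) ≤ n := by
        have h6 : Nat.card (chainStabilizer σ) < Nat.card K := by
          rw [← Subgroup.card_top (G := K)]
          exact lt_of_le_of_ne (Subgroup.card_le_of_le le_top) fun h =>
            hne' (Subgroup.eq_of_le_of_card_ge le_top h.ge)
        omega
      refine ih (chainStabilizer σ) (G.subgroupOf (chainStabilizer σ))
        (M.subgroupOf (chainStabilizer σ)) hcard ?_ ?_ _ ?_ c
      · intro x hx
        rw [Subgroup.mem_subgroupOf] at hx ⊢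
        exact hGM hx
      · intro m hm
        obtain ⟨k, hk⟩ := hp m (Subgroup.mem_subgroupOf.1 hm)
        refine ⟨k, Subgroup.mem_subgroupOf.2 ?_⟩
        exact hk
      · exact ⟨fun g x => hz.conj g x, fun x hx => hz.supp _ fun h =>
          hx (Subgroup.mem_subgroupOf.mpr h)⟩

end Pool.Agent.N20.EN
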