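import Pool.Agent.N20.EN.Asm
import Pool.Agent.N20.EW.Fin
import Pool.Agent.Y63.NV.Bawc

/-!
# Navarro's conjecture and overgroups: the theorem
-/

set_option autoImplicit false

open scoped Classical BigOperators

noncomputable section

namespace Pool.Agent.N20.EN

open Pool.Agent.Y63.NV
open Pool.Agent.Y63.KR
open Pool.Agent.N20.AE (s_mm s_ze)

/-- the equality for automorphisms from Navarro's equality -/
theorem autB_of {p : ℕ} [Fact p.Prime] {F : Type} [Field F] [IsAlgClosed F] [CharP F p]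
    (red : integralClosure ℤ ℂ →+* F)
    (h : ∀ (H : Type) [Group H] [Finite H], NavarroTheta p red (⊤ : Subgroup H)) :
    AutB p F red := by
  intro G _ _ α B hB hinv
  exact Pool.Agent.N655.EWAUTW.AUTW EW.s_eqw p F red
    (fun K _ _ => (bawc_iff p red).2 ((theta_iff p F red K ⊤).1 (h K))) G α B hB hinv

theorem main_en (h1 : S_BRQO) (h2 : S_FILTO) (hT : S_TOGO) (hLQ : S_LQO) (hNQ : S_NQO)
    (hTL : S_TRLO) (hTN : S_TRNO) (hA : S_BASA) (hB : S_BASB) (hF : S_FINO) (hC : S_CONV)
    {p : ℕ} [Fact p.Prime] {F : Type} [Field F] [IsAlgClosed F] [CharP F p]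
    (red : integralClosure ℤ ℂ →+* F) :
    (∀ (Γ : Type) [Group Γ] [Finite Γ] (G : Subgroup Γ) [G.Normal], IsPGroup p (Γ ⧸ G) →
      NavarroTheta p red G) ↔
    ∀ (K : Type) [Group K] [Finite K] (G M : Subgroup K) [G.Normal] [M.Normal], G ≤ M →
      PQ p G M → ∀ B : (G → F) → F, IsBlock B → IsInvBlock G B →
        orbI M G B = orbN p red M G B := by
  constructor
  · intro h K _ _ G M hG hM hGM hp B hBB hinv
    have hbase := hB p F red (hA p F red (autB_of red fun H _ _ => h H ⊤ (pgroup_top p H)))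
    obtain ⟨D, hD⟩ := (s_mm p F G B hBB).1
    have hn : G.subtype.range.Normal := by
      rw [Subgroup.range_subtype]
      exact hG
    obtain ⟨z, hz⟩ := s_ze p F G K G.subtype B D G.subtype_injective hn hBB hD
      (fun k f f' hf hff => hinv k f f' hf hff)
    have hzZ : InZ G z :=
      ⟨fun g x => hz.cl g x, fun x hx => hz.supp x (by rwa [Subgroup.range_subtype])⟩
    obtain ⟨h3, h4⟩ := hF p F red K G M hGM B hBB z hzZ hz.one hz.sep
    have h5 := inductO h1 h2 hT hLQ hNQ hTL hTN red hbase (Nat.card K) K G M le_rfl hGM hp z hzZ 1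
    rw [h3, h4] at h5
    have h0 : (Nat.card K : ℤ) ≠ 0 := by exact_mod_cast Nat.card_pos.ne'
    exact_mod_cast mul_left_cancel₀ h0 h5
  · intro h Γ _ _ G hG hp
    rw [theta_iff]
    refine (hC p F red Γ G).1 fun B hBB hinv => h Γ G ⊤ le_top (fun m _ => ?_) B hBB hinv
    exact pow_mem_of_pGroup hp m

end Pool.Agent.N20.EN
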