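import Pool.Agent.Y63.NV.Stm
import Pool.Agent.N20.EW.Stm2

/-!
# Navarro's conjecture for `p`-group extensions: orbits of an overgroup, statements
-/

set_option autoImplicit false

open scoped Classical BigOperators

noncomputable section

namespace Pool.Agent.N20.EN

open Pool.Agent.Y63.NV
open Pool.Agent.Y63.KR
open Pool.Agent.Y63.AWC (IsIrreducibleCharacter pSubgroupSetoid)

section defs

variable {F : Type} [Field F] {Γ : Type} [Group Γ]

/-- `N ≤ M ≤ H`, where `N` and `M` are normalised by `H`, `M/N` is a `p`-group and `z` is an `H`-class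
function supported on `N`. -/
structure ExtO (p : ℕ) (N M H : Subgroup Γ) (z : Γ → F) : Prop where
  ext : Ext p N M z
  le : M ≤ H
  normN : ∀ h ∈ H, ∀ n ∈ N, h * n * h⁻¹ ∈ N
  normM : ∀ h ∈ H, ∀ m ∈ M, h * m * h⁻¹ ∈ M
  inv : ∀ h ∈ H, ∀ x : Γ, z (h * x * h⁻¹) = z x

/-- the conjugation by `h` maps the function `φ` on `N` to `φ'` -/
def CjF {X : Type} (h : Γ) {N : Subgroup Γ} (φ φ' : N → X) : Prop :=
  ∀ x y : N, (y : Γ) = h * x * h⁻¹ → φ' y = φ x

/-- the `M`-invariant irreducible characters of `N` over `F` on which `z` acts as `c` -/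
def TrM (N M : Subgroup Γ) (z : Γ → F) (c : F) : Type :=
  {φ : N → F // IsIrrTrace φ ∧ IsInvUnder M φ ∧ ∀ x : N, ∑ᶠ g : N, z g * φ (g * x) = c * φ x}

/-- the number of the `H`-orbits on `TrM N M z c` -/
def OrbL (N M H : Subgroup Γ) (z : Γ → F) (c : F) : ℕ :=
  Nat.card (Quot fun φ φ' : TrM N M z c => ∃ h ∈ H, CjF h φ.1 φ'.1)

/-- the weight characters of `J` for the normal subgroup `Q` on which `z` acts as `c` -/
def WtJ (p : ℕ) (red : integralClosure ℤ ℂ →+* F) (J Q : Subgroup Γ) (z : Γ → F) (c : F) : Type :=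
  {ξ : J → ℂ // IsWt p (Q.subgroupOf J) ξ ∧ centralValue red ξ (fun x => z x) = c}

/-- the number of the `J`-orbits on the weight characters of `M ∩ J` for `Q` on which `z` acts as
`c` -/
def OrbW (p : ℕ) (red : integralClosure ℤ ℂ →+* F) (M J Q : Subgroup Γ) (z : Γ → F) (c : F) : ℕ :=
  Nat.card (Quot fun ξ ξ' : WtJ p red (M ⊓ J) Q z c => ∃ h ∈ J, CjF h ξ.1 ξ'.1)

/-- the weighted number of orbits of invariant characters -/
def LsK (G M H : Subgroup Γ) (z : Γ → F) (c : F) : ℤ :=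
  if G ⊔ (M ⊓ H) = M then (Nat.card H : ℤ) * OrbL (G ⊓ H) (M ⊓ H) H z c else 0

/-- the weighted number of orbits of weights -/
def WsK (p : ℕ) (red : integralClosure ℤ ℂ →+* F) (G M H : Subgroup Γ) (z : Γ → F) (c : F) : ℤ :=
  ∑ᶠ Q : Subgroup Γ, if IsPGroup p Q ∧ Q ≤ H ∧ G ⊔ Q = M then
    (Nat.card ↥(H ⊓ Subgroup.normalizer (Q : Set Γ)) : ℤ) *
      OrbW p red M (H ⊓ Subgroup.normalizer (Q : Set Γ)) Q z c else 0

/-- the elements of `N` which are `H`-conjugate to elements of `SR p N (N_M(R)) R` -/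
def SCO (p : ℕ) (N M H R : Subgroup Γ) : Set Γ :=
  {x | ∃ h ∈ H, h * x * h⁻¹ ∈ SR p N (M ⊓ Subgroup.normalizer (R : Set Γ)) R}

/-- the `M`-invariant irreducible characters over `F` of `G` in the block `B` -/
def IBM (M G : Subgroup Γ) (B : (G → F) → F) : Type :=
  {φ : G → F // IsIrrTrace φ ∧ IsInvUnder M φ ∧
    ∀ f : G → F, IsClassFun f → ∀ x : G, ∑ᶠ g : G, f g * φ (g * x) = B f * φ x}

/-- the number of the orbits of the whole group on `IBM M G B` -/
def orbI (M G : Subgroup Γ) (B : (G → F) → F) : ℕ :=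
  Nat.card (Quot fun φ φ' : IBM M G B => ∃ k : Γ, CjF k φ.1 φ'.1)

/-- `z` is an `M`-class function supported on `G`, an element of `Z(F[M]) ∩ F[G]` -/
def InZM (M G : Subgroup Γ) (z : Γ → F) : Prop :=
  (∀ g ∈ M, ∀ x, z (g * x * g⁻¹) = z x) ∧ ∀ x, x ∉ G → z x = 0

/-- The pairs `(Q, θ)`, where `Q` is a `p`-subgroup of `M` with `GQ = M` and `θ` the inflation of a
character of `p`-defect zero of `N_M(Q)/Q` such that the block of `M` induced by the block of `θ` covers
the block `B` of `G`. -/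
def NWp (p : ℕ) (red : integralClosure ℤ ℂ →+* F) (M G : Subgroup Γ) (B : (G → F) → F) : Type :=
  {s : (Σ Q : Subgroup Γ, (↥(M ⊓ Subgroup.normalizer (Q : Set Γ)) → ℂ)) //
    IsPGroup p s.1 ∧ G ⊔ s.1 = M ∧
    IsWt p (s.1.subgroupOf (M ⊓ Subgroup.normalizer (s.1 : Set Γ))) s.2 ∧
    ∀ z : Γ → F, InZM M G z → centralValue red s.2 (fun x => z x) = B (fun x : G => z x)}

/-- the number of the classes of the pairs `(Q, θ)` under the whole group -/
def orbN (p : ℕ) (red : integralClosure ℤ ℂ →+* F) (M G : Subgroup Γ) (B : (G → F) → F) : ℕ :=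
  Nat.card (Quot fun s s' : NWp p red M G B => ∃ k : Γ, s'.1.1 = conjSub k s.1.1 ∧
    ∀ (x : ↥(M ⊓ Subgroup.normalizer (s.1.1 : Set Γ)))
      (y : ↥(M ⊓ Subgroup.normalizer (s'.1.1 : Set Γ))), (y : Γ) = k * x * k⁻¹ → s'.1.2 y = s.1.2 x)

end defs

/-- BRQ: the two bases of the Brauer quotient -/
def S_BRQO : Prop := ∀ (p : ℕ) [Fact p.Prime] (F : Type) [Field F] [IsAlgClosed F] [CharP F p]
  (Γ : Type) [Group Γ] [Finite Γ] (N M H : Subgroup Γ) (z : Γ → F), ExtO p N M H z → ∀ c : F,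
    OrbL N M H z c = gm p z (S0 p N M) H c

/-- FILTA: one step of the filtration -/
def S_FILTAO : Prop := ∀ (p : ℕ) [Fact p.Prime] (F : Type) [Field F] [IsAlgClosed F] [CharP F p]
  (Γ : Type) [Group Γ] [Finite Γ] (N M H : Subgroup Γ) (z : Γ → F), ExtO p N M H z → ∀ c : F,
    ∀ R : Subgroup Γ, IsPGroup p R → R ≤ M → M ≤ N ⊔ R →
      gm p z (SCO p N M H R) H c = gm p (cut z (Subgroup.centralizer (R : Set Γ)))
            (SR p N (M ⊓ Subgroup.normalizer (R : Set Γ)) R)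
            (H ⊓ Subgroup.normalizer (R : Set Γ)) c

/-- FILT: the filtration by the Sylow `p`-subgroups of the centralisers -/
def S_FILTO : Prop := ∀ (p : ℕ) [Fact p.Prime] (F : Type) [Field F] [IsAlgClosed F] [CharP F p]
  (Γ : Type) [Group Γ] [Finite Γ] (N M H : Subgroup Γ) (z : Γ → F), ExtO p N M H z → ∀ c : F,
    Nat.card H * gm p z (S0 p N M) H c =
      ∑ᶠ R : Subgroup Γ, if IsPGroup p R ∧ R ≤ M ∧ M ≤ N ⊔ R then
        Nat.card ↥(H ⊓ Subgroup.normalizer (R : Set Γ)) *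
          gm p (cut z (Subgroup.centralizer (R : Set Γ)))
            (SR p N (M ⊓ Subgroup.normalizer (R : Set Γ)) R)
            (H ⊓ Subgroup.normalizer (R : Set Γ)) c else 0

/-- TOG: cancellation over the chains of `p`-subgroups of `M` -/
def S_TOGO : Prop := ∀ (p : ℕ) [Fact p.Prime] (Γ : Type) [Group Γ] [Finite Γ] (M R : Subgroup Γ)
    (w : Subgroup Γ → ℤ), IsPGroup p R → R ≠ ⊥ → R ≤ M →
    ∑ᶠ σ : {σ : Set (Subgroup Γ) // IsPChain p σ ∧ ∀ P ∈ σ, P ≤ M}, (-1) ^ σ.1.ncard *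
      (if R ≤ chainStabilizer σ.1 then
        w (chainStabilizer σ.1 ⊓ Subgroup.normalizer (R : Set Γ)) else 0) = 0

/-- LQ: characters and quotients by normal `p`-subgroups -/
def S_LQO : Prop := ∀ (p : ℕ) [Fact p.Prime] (F : Type) [Field F] [IsAlgClosed F] [CharP F p]
  (Γ : Type) [Group Γ] [Finite Γ] (G M P : Subgroup Γ) [G.Normal] [M.Normal] [P.Normal]
  (z : Γ → F), IsPGroup p P → P ≤ M → G ≤ M → InZ G z → ∀ c : F,
    InZ (G.map (QuotientGroup.mk' P)) (push P z) ∧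
    LsK G M ⊤ z c = Nat.card P *
      LsK (G.map (QuotientGroup.mk' P)) (M.map (QuotientGroup.mk' P)) ⊤ (push P z) c

/-- NQ: weights and quotients by normal `p`-subgroups -/
def S_NQO : Prop := ∀ (p : ℕ) [Fact p.Prime] (F : Type) [Field F] [CharP F p]
  (red : integralClosure ℤ ℂ →+* F)
  (Γ : Type) [Group Γ] [Finite Γ] (G M P : Subgroup Γ) [G.Normal] [M.Normal] [P.Normal]
  (z : Γ → F), IsPGroup p P → P ≤ M → G ≤ M → InZ G z → ∀ c : F,
    WsK p red G M ⊤ z c = Nat.card P *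
      WsK p red (G.map (QuotientGroup.mk' P)) (M.map (QuotientGroup.mk' P)) ⊤ (push P z) c

/-- TRL: characters and subgroups -/
def S_TRLO : Prop := ∀ (F : Type) [Field F] (Γ : Type) [Group Γ] [Finite Γ] (G M H : Subgroup Γ)
  [G.Normal] [M.Normal] (z : Γ → F) (c : F), G ⊔ (M ⊓ H) = M →
    LsK G M H z c = LsK (G.subgroupOf H) (M.subgroupOf H) ⊤ (fun x => z x) c

/-- TRN: weights and subgroups -/
def S_TRNO : Prop := ∀ (p : ℕ) (F : Type) [Field F]
  (red : integralClosure ℤ ℂ →+* F) (Γ : Type) [Group Γ] [Finite Γ] (G M H : Subgroup Γ)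
  [G.Normal] [M.Normal] (z : Γ → F) (c : F), G ⊔ (M ⊓ H) = M →
    (∀ h ∈ H, ∀ x : Γ, z (h * x * h⁻¹) = z x) →
    WsK p red G M H z c = WsK p red (G.subgroupOf H) (M.subgroupOf H) ⊤ (fun x => z x) c

/-- the equality for automorphisms and blocks -/
def AutB (p : ℕ) (F : Type) [Field F] (red : integralClosure ℤ ℂ →+* F) : Prop :=
  ∀ (G : Type) [Group G] [Finite G] (α : MulAut G) (B : (G → F) → F), IsBlock B → EW.InvA B α →
      Nat.card G * EW.fixL B α = ∑ᶠ R : Subgroup G, if IsPGroup p R then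
        Nat.card (Subgroup.normalizer (R : Set G)) *
        Nat.card {ξ : Subgroup.normalizer (R : Set G) → ℂ //
          IsWt p (R.subgroupOf (Subgroup.normalizer (R : Set G))) ξ ∧
          (∀ f : G → F, IsClassFun f → centralValue red ξ (fun x => f x) = B f) ∧
          EW.FixW α R ξ} else 0

/-- the equality for automorphisms and single elements -/
def AutZ (p : ℕ) (F : Type) [Field F] (red : integralClosure ℤ ℂ →+* F) : Prop :=
  ∀ (G : Type) [Group G] [Finite G] (α : MulAut G) (z : G → F), IsClassFun z →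
    (∀ x, z (α x) = z x) → ∀ c : F,
      Nat.card G * Nat.card {φ : G → F // IsIrrTrace φ ∧
        (∀ x : G, ∑ᶠ g : G, z g * φ (g * x) = c * φ x) ∧ ∀ x : G, φ (α x) = φ x} =
      ∑ᶠ R : Subgroup G, if IsPGroup p R then
        Nat.card (Subgroup.normalizer (R : Set G)) *
        Nat.card {ξ : Subgroup.normalizer (R : Set G) → ℂ //
          IsWt p (R.subgroupOf (Subgroup.normalizer (R : Set G))) ξ ∧
          centralValue red ξ (fun x => z x) = c ∧ EW.FixW α R ξ} else 0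

/-- BASA: from blocks to single elements -/
def S_BASA : Prop := ∀ (p : ℕ) [Fact p.Prime] (F : Type) [Field F] [IsAlgClosed F] [CharP F p]
  (red : integralClosure ℤ ℂ →+* F), AutB p F red → AutZ p F red

/-- BASB: from automorphisms to orbits -/
def S_BASB : Prop := ∀ (p : ℕ) [Fact p.Prime] (F : Type) [Field F] [IsAlgClosed F] [CharP F p]
  (red : integralClosure ℤ ℂ →+* F), AutZ p F red →
  ∀ (K : Type) [Group K] [Finite K] (M : Subgroup K) [M.Normal] (z : K → F), InZ M z → ∀ c : F,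
    LsK M M ⊤ z c = WsK p red M M ⊤ z c

/-- CNT: the weighted sum counts the classes of pairs -/
def S_CNTO : Prop := ∀ (p : ℕ) [Fact p.Prime] (F : Type) [Field F]
  (red : integralClosure ℤ ℂ →+* F) (K : Type) [Group K] [Finite K] (G M : Subgroup K) [G.Normal]
  [M.Normal] (z : K → F), InZ G z → ∀ c : F,
    WsK p red G M ⊤ z c = Nat.card K *
      (Nat.card (Quot fun s s' : {s : (Σ Q : Subgroup K,
        (↥(M ⊓ Subgroup.normalizer (Q : Set K)) → ℂ)) // IsPGroup p s.1 ∧ G ⊔ s.1 = M ∧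
          IsWt p (s.1.subgroupOf (M ⊓ Subgroup.normalizer (s.1 : Set K))) s.2 ∧
          centralValue red s.2 (fun x => z x) = c} => ∃ k : K, s'.1.1 = conjSub k s.1.1 ∧
        ∀ (x : ↥(M ⊓ Subgroup.normalizer (s.1.1 : Set K)))
          (y : ↥(M ⊓ Subgroup.normalizer (s'.1.1 : Set K))), (y : K) = k * x * k⁻¹ →
            s'.1.2 y = s.1.2 x) : ℤ)

/-- SEPW: the pairs `(Q, θ)` of the block `B` -/
def S_SEPW : Prop := ∀ (p : ℕ) [Fact p.Prime] (F : Type) [Field F] [IsAlgClosed F] [CharP F p]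
  (red : integralClosure ℤ ℂ →+* F) (K : Type) [Group K] [Finite K] (G M : Subgroup K) [G.Normal]
  [M.Normal], G ≤ M → ∀ (B : (G → F) → F), IsBlock B →
    ∀ z : K → F, InZ G z → B (fun x => z x) = 1 →
    (∀ B' : (G → F) → F, IsBlock B' → B' (fun x => z x) = 1 →
      ∀ f : G → F, IsClassFun f → B' f = B f) →
    ∀ (Q : Subgroup K), IsPGroup p Q → Q ≤ M →
    ∀ (θ : ↥(M ⊓ Subgroup.normalizer (Q : Set K)) → ℂ),
      IsWt p (Q.subgroupOf (M ⊓ Subgroup.normalizer (Q : Set K))) θ →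
      (centralValue red θ (fun x => z x) = 1 ↔
        ∀ w : K → F, InZM M G w → centralValue red θ (fun x => w x) = B (fun x : G => w x))

/-- CONV: the case `M = K` is Navarro's equality -/
def S_CONV : Prop := ∀ (p : ℕ) [Fact p.Prime] (F : Type) [Field F] [IsAlgClosed F] [CharP F p]
  (red : integralClosure ℤ ℂ →+* F) (K : Type) [Group K] [Finite K] (G : Subgroup K) [G.Normal],
    (∀ B : (G → F) → F, IsBlock B → IsInvBlock G B → orbI ⊤ G B = orbN p red ⊤ G B) ↔
      Navarro p red G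

/-- FINO: the orbits for a separating element -/
def S_FINO : Prop := ∀ (p : ℕ) [Fact p.Prime] (F : Type) [Field F] [IsAlgClosed F] [CharP F p]
  (red : integralClosure ℤ ℂ →+* F) (K : Type) [Group K] [Finite K] (G M : Subgroup K) [G.Normal]
  [M.Normal], G ≤ M → ∀ (B : (G → F) → F), IsBlock B →
    ∀ z : K → F, InZ G z → B (fun x => z x) = 1 →
    (∀ B' : (G → F) → F, IsBlock B' → B' (fun x => z x) = 1 →
      ∀ f : G → F, IsClassFun f → B' f = B f) →
    LsK G M ⊤ z 1 = Nat.card K * (orbI M G B : ℤ) ∧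
    WsK p red G M ⊤ z 1 = Nat.card K * (orbN p red M G B : ℤ)

end Pool.Agent.N20.EN
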